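import Pool.Agent.Helper89.Vol.Goals

/-!
Project V36 (MP_cd13d2_co), packet UP: the upper bound, from generic points to all points.
-/

set_option autoImplicit false

namespace Pool.Agent.Helper78.Vol.PkUP

open MeasureTheory Set Pool.Agent.Helper86.Poly Pool.Agent.Helper89.Vol

open scoped Pointwise

theorem vol_smul (c : ℝ) (hc : 0 < c) (y : Fin 6 → E 3) :
    volume (convexHull ℝ (range fun k => c • y k)) =
      ENNReal.ofReal (c ^ 3) * volume (convexHull ℝ (range y)) := by
  have h1 : (range fun k => c • y k) = c • range y := by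
    ext z
    simp only [mem_range, Set.mem_smul_set]
    constructor
    · rintro ⟨k, rfl⟩; exact ⟨y k, ⟨k, rfl⟩, rfl⟩
    · rintro ⟨_, ⟨k, rfl⟩, rfl⟩; exact ⟨k, rfl⟩
  rw [h1, convexHull_smul, Measure.addHaar_smul]
  have h2 : Module.finrank ℝ (E 3) = 3 := by simp [E]
  rw [h2, abs_of_pos (by positivity)]

theorem thm (hG : G_UPG) (hD : G_DENS) (hL : G_LSC) (h6 : G_D6) (hN : G_NUM) : G_UP := by
  intro C hC x hx
  have hC1 : 1 < C := by
    have h1 := hN.2.1
    have h2 := hC (379 / 1250) ⟨by norm_num, by norm_num⟩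
    linarith
  have hC0 : 0 < C := by linarith
  by_contra hcon
  push Not at hcon
  set v := (volume (convexHull ℝ (range x))).toReal with hv
  have hv0 : 0 < v := by linarith
  have hVt : volume (convexHull ℝ (range x)) ≠ ⊤ := by
    intro h
    rw [hv, h, ENNReal.toReal_top] at hv0
    exact lt_irrefl _ hv0
  have hV : volume (convexHull ℝ (range x)) = ENNReal.ofReal v := by
    rw [hv, ENNReal.ofReal_toReal hVt]
  -- the choice of `η`
  set t := 6 * v / C with ht
  have ht1 : 1 < t := by rw [ht, lt_div_iff₀ hC0]; linarith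
  set η := min 1 ((t - 1) / 8) with hη
  have hη0 : 0 < η := lt_min one_pos (by linarith)
  have hη1 : η ≤ 1 := min_le_left _ _
  have hη2 : η ≤ (t - 1) / 8 := min_le_right _ _
  have h3 : (1 + η) ^ 3 < t := by
    have : (1 + η) ^ 3 ≤ 1 + 7 * η := by nlinarith [mul_nonneg hη0.le (sub_nonneg.mpr hη1), sq_nonneg η]
    linarith
  have h4 : (1 + η) ^ 3 * C < 6 * v := by rw [ht, lt_div_iff₀ hC0] at h3; exact h3
  have hr : ENNReal.ofReal ((1 + η) ^ 3 * C / 6) < volume (convexHull ℝ (range x)) := by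
    rw [hV, ENNReal.ofReal_lt_ofReal_iff hv0]
    linarith
  obtain ⟨δ, hδ, hq⟩ := hL 3 6 x _ hr
  obtain ⟨y, hy, hyD⟩ := hD x (min δ (η / 2)) (lt_min hδ (by linarith))
  have hVy := hq y (fun i => (hy i).trans_le (min_le_left _ _))
  have hdy : ∀ i j, dist (y i) (y j) ≤ 1 + η := by
    intro i j
    have a1 := (hy i).trans_le (min_le_right δ (η / 2))
    have a2 := (hy j).trans_le (min_le_right δ (η / 2))
    have a3 := hx i j
    have a4 : dist (y i) (y j) ≤ dist (y i) (x i) + dist (x i) (x j) + dist (x j) (y j) :=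
      dist_triangle4 _ _ _ _
    rw [dist_comm (y i) (x i)] at a4
    linarith
  have hη' : 0 < (1 + η)⁻¹ := by positivity
  have hG' := hG C hC (fun k => (1 + η)⁻¹ • y k) (by
    intro i j
    rw [dist_smul₀, Real.norm_of_nonneg hη'.le, inv_mul_le_iff₀ (by linarith), mul_one]
    exact hdy i j) (by
    intro i j hij
    rw [h6]
    exact mul_ne_zero (pow_ne_zero _ hη'.ne') (hyD i j hij))
  rw [vol_smul _ hη' y] at hG'
  have hc : 0 < ((1 + η)⁻¹) ^ 3 := by positivity
  have e1 : (6 : ENNReal) * (ENNReal.ofReal (((1 + η)⁻¹) ^ 3) *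
      ENNReal.ofReal ((1 + η) ^ 3 * C / 6)) = ENNReal.ofReal C := by
    rw [← ENNReal.ofReal_mul hc.le, show (6 : ENNReal) = ENNReal.ofReal 6 by simp,
      ← ENNReal.ofReal_mul (by norm_num)]
    congr 1
    field_simp
  have e2 : (6 : ENNReal) * (ENNReal.ofReal (((1 + η)⁻¹) ^ 3) *
      ENNReal.ofReal ((1 + η) ^ 3 * C / 6)) <
      6 * (ENNReal.ofReal (((1 + η)⁻¹) ^ 3) * volume (convexHull ℝ (range y))) := by
    have hne : ENNReal.ofReal (((1 + η)⁻¹) ^ 3) ≠ 0 := by
      rw [Ne, ENNReal.ofReal_eq_zero, not_le]; exact hc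
    refine (ENNReal.mul_lt_mul_iff_right (by norm_num) (by norm_num)).mpr ?_
    exact (ENNReal.mul_lt_mul_iff_right hne ENNReal.ofReal_ne_top).mpr hVy
  rw [e1] at e2
  exact absurd hG' (not_le.mpr e2)

end Pool.Agent.Helper78.Vol.PkUP
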